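import Pool.Agent.H33.ULT.Dense
import Pool.Agent.H33.ULT.Ultra

/-!
# A hereditarily rapid countable closed ultrafilter that is not Laver, under CH
-/

set_option autoImplicit false

open Set

namespace Pool.Agent.Results.MP_f72c2d_lc.ContinuumHypothesis

open Pool.H33ULT

/-- The ultrafilter contains no singleton. -/
def Nonprincipal (U : Ultrafilter ℕ) : Prop := ∀ n : ℕ, ({n} : Set ℕ) ∉ U

/-- `U` is rapid: for each strictly increasing `f` there is `x ∈ U` with `|x ∩ f(n)| ≤ n` for all `n`. -/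
def Rapid (U : Ultrafilter ℕ) : Prop :=
  ∀ f : ℕ → ℕ, StrictMono f → ∃ x ∈ U, ∀ n, (x ∩ {k | k < f n}).ncard ≤ n

/-- The Rudin-Keisler order `V ≤ U`. -/
def RudinKeisler (V U : Ultrafilter ℕ) : Prop := ∃ f : ℕ → ℕ, ∀ x ∈ V, f ⁻¹' x ∈ U

/-- Each nonprincipal ultrafilter below `U` in the Rudin-Keisler order is rapid. -/
def HereditarilyRapid (U : Ultrafilter ℕ) : Prop :=
  ∀ V : Ultrafilter ℕ, Nonprincipal V → RudinKeisler V U → Rapid V

/-- For each `F : ℕ → 2^ℕ` there is `x ∈ U` such that the closure of `F[x]` is countable. -/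
def CountableClosed (U : Ultrafilter ℕ) : Prop :=
  ∀ F : ℕ → (ℕ → Bool), ∃ x ∈ U, (closure (F '' x)).Countable

/-- `U` is a Laver ultrafilter.  A partition into finitely many pieces is given as the fibres of a
map `ℕ → ℕ` with finite range. -/
def Laver (U : Ultrafilter ℕ) : Prop :=
  ∀ P : ℕ → ℕ → ℕ, (∀ n, (Set.range (P n)).Finite) → ∃ x ∈ U, ∀ n, (P n '' x).ncard ≤ n + 1

/-- the requirements -/
abbrev Req : Type := ((List ℕ → ℕ) × (ℕ → ℕ)) ⊕ (List ℕ → ℕ → Bool)

/-- the meaning of the requirements -/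
def Meets : Req → Set (List ℕ) → Prop :=
  Sum.elim (fun p y => Thin p.1 p.2 y) (fun F y => (closure (F '' y)).Countable)

theorem mk_req : Cardinal.mk Req ≤ Cardinal.continuum := by
  have h1 : Cardinal.mk (List ℕ → ℕ) = Cardinal.continuum := by
    rw [Cardinal.mk_arrow]
    simp
  have h2 : Cardinal.mk (ℕ → ℕ) = Cardinal.continuum := by
    rw [Cardinal.mk_arrow]
    simp
  have h3 : Cardinal.mk (List ℕ → ℕ → Bool) = Cardinal.continuum := by
    rw [Cardinal.mk_arrow, Cardinal.mk_arrow]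
    simp
  rw [Cardinal.mk_sum, Cardinal.mk_prod]
  simp only [Cardinal.lift_id]
  rw [h1, h2, h3]
  simp

/-- the coding -/
def code : List ℕ ≃ ℕ := Denumerable.eqv (List ℕ)

/-- the partitions that show that the ultrafilter is not Laver -/
noncomputable def part (n k : ℕ) : ℕ := by
  classical
  exact code (if (code.symm k).length ≤ n then cut n (code.symm k) else [])

theorem part_finite (n : ℕ) : (Set.range (part n)).Finite := by
  classical
  refine Set.Finite.subset (((finite_lists (n * n) n).image code).union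
    (Set.finite_singleton (code []))) ?_
  rintro _ ⟨k, rfl⟩
  unfold part
  by_cases h : (code.symm k).length ≤ n
  · rw [if_pos h]
    exact Or.inl ⟨_, cut_mem n n _ h, rfl⟩
  · rw [if_neg h]
    exact Or.inr rfl

theorem not_laver (U : Ultrafilter (List ℕ)) (hU : ∀ z ∈ U, PosS z) : ¬ Laver (U.map code) := by
  intro hL
  obtain ⟨x, hx, hxn⟩ := hL part part_finite
  have hy : code ⁻¹' x ∈ U := hx
  obtain ⟨m, hm⟩ := hU _ hy 1
  obtain ⟨n, hmn, hn⟩ := many_pieces m 0 _ hm m
  have h1 : code '' (cut n '' (code ⁻¹' x ∩ len m)) ⊆ part n '' x := by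
    rintro _ ⟨_, ⟨s, hs, rfl⟩, rfl⟩
    refine ⟨code s, hs.1, ?_⟩
    have hlen : s.length = m := hs.2
    unfold part
    rw [Equiv.symm_apply_apply, if_pos (by omega)]
  have h2 : (code '' (cut n '' (code ⁻¹' x ∩ len m))).ncard =
      (cut n '' (code ⁻¹' x ∩ len m)).ncard := Set.ncard_image_of_injective _ code.injective
  have h3 := Set.ncard_le_ncard h1 ((part_finite n).subset (Set.image_subset_range _ _))
  have h4 := hxn n
  omega

theorem hereditarily_rapid (U : Ultrafilter (List ℕ))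
    (hU : ∀ (g : List ℕ → ℕ) (f : ℕ → ℕ), ∃ y ∈ U, Thin g f y) :
    HereditarilyRapid (U.map code) := by
  intro V hV hVU f hf
  obtain ⟨φ, hφ⟩ := hVU
  obtain ⟨y, hy, hthin⟩ := hU (φ ∘ code) f
  have himg : ∀ x : Set ℕ, (∀ s ∈ y, φ (code s) ∈ x) → x ∈ V := by
    intro x hx
    by_contra hxV
    have h1 : xᶜ ∈ V := Ultrafilter.compl_mem_iff_notMem.2 hxV
    have h2 : code ⁻¹' (φ ⁻¹' xᶜ) ∈ U := hφ _ h1
    have h3 := Filter.inter_mem hy h2
    obtain ⟨s, hs⟩ := Filter.nonempty_of_mem h3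
    exact hs.2 (hx s hs.1)
  rcases hthin with ⟨c, hc⟩ | ⟨τ, hτ⟩
  · exact absurd (himg {c} fun s hs => hc s hs) (hV c)
  · refine ⟨(φ ∘ code) '' y, himg _ fun s hs => ⟨s, hs, rfl⟩, ?_⟩
    intro n
    have hch : ∀ v : ℕ, ∃ s : List ℕ, v ∈ (φ ∘ code) '' y → s ∈ y ∧ (φ ∘ code) s = v := by
      intro v
      by_cases h : v ∈ (φ ∘ code) '' y
      · obtain ⟨s, hs, hsv⟩ := h
        exact ⟨s, fun _ => ⟨hs, hsv⟩⟩
      · exact ⟨[], fun h' => absurd h' h⟩
    choose σ hσ using hch
    have h1 : ((φ ∘ code) '' y ∩ {k | k < f n}).ncard ≤ ({k | k < n} : Set ℕ).ncard := by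
      refine Set.ncard_le_ncard_of_injOn (fun v => τ (σ v)) ?_ ?_ (Set.finite_lt_nat n)
      · rintro v ⟨hv1, hv2⟩
        obtain ⟨h2, h3⟩ := hσ v hv1
        have h4 := (hτ _ h2).1
        have h5 : f (τ (σ v)) < f n := by
          rw [h3] at h4
          exact lt_of_le_of_lt h4 hv2
        exact hf.lt_iff_lt.1 h5
      · rintro v ⟨hv1, _⟩ w ⟨hw1, _⟩ hvw
        obtain ⟨h2, h3⟩ := hσ v hv1
        obtain ⟨h4, h5⟩ := hσ w hw1
        have h6 := (hτ _ h2).2 _ h4 hvw
        rw [h3, h5] at h6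
        exact h6
    rw [ncard_lt] at h1
    exact h1

theorem result (ch : Cardinal.continuum.{0} = Cardinal.aleph 1) :
    ∃ U : Ultrafilter ℕ, Nonprincipal U ∧ HereditarilyRapid U ∧ CountableClosed U ∧ ¬ Laver U := by
  haveI : Nonempty Req := ⟨Sum.inr fun _ _ => true⟩
  obtain ⟨U, hU1, hU2⟩ := exists_ultra (S := List ℕ) (R := Req) PosS
    (fun _ _ h => posS_mono h) (fun _ _ h => posS_union h) posS_univ not_posS_empty posS_sigma
    Meets (by
      rintro (⟨g, f⟩ | F) x hx
      · exact thin_dense g f hx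
      · exact conv_dense F hx) (mk_req.trans ch.le)
  refine ⟨U.map code, ?_, ?_, ?_, not_laver U hU1⟩
  · intro n hn
    have h1 : code ⁻¹' {n} ∈ U := hn
    refine not_posS_of_bdd ((code.symm n).length + 1) ?_ (hU1 _ h1)
    intro s hs
    have h2 : code s = n := hs
    rw [← h2, Equiv.symm_apply_apply]
    omega
  · exact hereditarily_rapid U fun g f => hU2 (Sum.inl (g, f))
  · intro F
    obtain ⟨y, hy, hF⟩ := hU2 (Sum.inr fun s => F (code s))
    have hF' : (closure ((fun s => F (code s)) '' y)).Countable := hF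
    refine ⟨code '' y, ?_, ?_⟩
    · have h1 : code ⁻¹' (code '' y) ∈ U := by
        rw [Set.preimage_image_eq _ code.injective]
        exact hy
      exact h1
    · rw [Set.image_image]
      exact hF'

end Pool.Agent.Results.MP_f72c2d_lc.ContinuumHypothesis
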