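import Pool.Agent.H33.ULT.Rank

/-!
# Hereditarily rapid ultrafilters with images of finite Cantor-Bendixson rank are Laver
-/

set_option autoImplicit false

open Set Filter

namespace Pool.Agent.Results.MP_f72c2d_lc.FiniteRank

open Pool.H33ULT

/-- The ultrafilter contains no singleton. -/
def Nonprincipal (U : Ultrafilter ℕ) : Prop := ∀ n : ℕ, ({n} : Set ℕ) ∉ U

/-- `U` is rapid: for each strictly increasing `f` there is `x ∈ U` with `|x ∩ f(n)| ≤ n` for all `n`. -/
def Rapid (U : Ultrafilter ℕ) : Prop :=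
  ∀ f : ℕ → ℕ, StrictMono f → ∃ x ∈ U, ∀ n, (x ∩ {k | k < f n}).ncard ≤ n

/-- The Rudin-Keisler order `V ≤ U`. -/
def RudinKeisler (V U : Ultrafilter ℕ) : Prop := ∃ f : ℕ → ℕ, ∀ x ∈ V, f ⁻¹' x ∈ U

/-- Each nonprincipal ultrafilter below `U` in the Rudin-Keisler order is rapid. -/
def HereditarilyRapid (U : Ultrafilter ℕ) : Prop :=
  ∀ V : Ultrafilter ℕ, Nonprincipal V → RudinKeisler V U → Rapid V

/-- `U` is a Laver ultrafilter.  A partition into finitely many pieces is given as the fibres of a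
map `ℕ → ℕ` with finite range. -/
def Laver (U : Ultrafilter ℕ) : Prop :=
  ∀ P : ℕ → ℕ → ℕ, (∀ n, (Set.range (P n)).Finite) → ∃ x ∈ U, ∀ n, (P n '' x).ncard ≤ n + 1

theorem thin_image (U : Ultrafilter ℕ) (hU : HereditarilyRapid U) (G f : ℕ → ℕ)
    (hf : StrictMono f) :
    ∃ x ∈ U, ∀ m, ((G '' x) ∩ {k | k < f m}).Finite ∧
      ((G '' x) ∩ {k | k < f m}).ncard ≤ m + 1 := by
  by_cases h : Nonprincipal (U.map G)
  · obtain ⟨y, hy, hyf⟩ := hU (U.map G) h ⟨G, fun x hx => hx⟩ f hf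
    refine ⟨G ⁻¹' y, hy, fun m => ?_⟩
    have hfin : (y ∩ {k | k < f m}).Finite := (Set.finite_lt_nat (f m)).subset inter_subset_right
    have hsub : (G '' (G ⁻¹' y)) ∩ {k | k < f m} ⊆ y ∩ {k | k < f m} :=
      inter_subset_inter_left _ (image_preimage_subset G y)
    refine ⟨hfin.subset hsub, ?_⟩
    have h1 := Set.ncard_le_ncard hsub hfin
    have h2 := hyf m
    omega
  · unfold Nonprincipal at h
    push Not at h
    obtain ⟨c, hc⟩ := h
    refine ⟨G ⁻¹' {c}, hc, fun m => ?_⟩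
    have hsub : (G '' (G ⁻¹' {c})) ∩ {k | k < f m} ⊆ {c} :=
      inter_subset_left.trans (image_preimage_subset G {c})
    refine ⟨(Set.finite_singleton c).subset hsub, ?_⟩
    have h1 := Set.ncard_le_ncard hsub (Set.finite_singleton c)
    rw [Set.ncard_singleton] at h1
    omega

theorem const_image (U : Ultrafilter ℕ) (P : ℕ → ℕ) (hP : (Set.range P).Finite) :
    ∃ x ∈ U, ∃ c, P '' x ⊆ {c} := by
  have h1 : Set.range P ∈ U.map P := by
    rw [Ultrafilter.mem_map, Set.preimage_range]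
    exact Filter.univ_mem
  obtain ⟨c, _, hc⟩ := Ultrafilter.eq_pure_of_finite_mem hP h1
  have h2 : ({c} : Set ℕ) ∈ U.map P := by
    rw [hc]
    exact Filter.mem_pure.2 rfl
  exact ⟨P ⁻¹' {c}, h2, c, image_preimage_subset P {c}⟩

theorem count {k : ℕ} (z : Set ℕ) (P : ℕ → ℕ) (v : ℕ → Fin k → ℕ) (T : Fin k → Set ℕ) (b : ℕ)
    (hT : ∀ i, (T i).Finite) (hb : ∀ i, (T i).ncard ≤ b) (hv : ∀ s ∈ z, ∀ i, v s i ∈ T i)
    (hP : ∀ s ∈ z, ∀ t ∈ z, v s = v t → P s = P t) : (P '' z).ncard ≤ b ^ k := by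
  classical
  let S : Finset (Fin k → ℕ) := Fintype.piFinset fun i => (hT i).toFinset
  have hS : S.card ≤ b ^ k := by
    have h1 : S.card = ∏ i : Fin k, ((hT i).toFinset).card := Fintype.card_piFinset _
    rw [h1]
    have h2 : ∏ i : Fin k, ((hT i).toFinset).card ≤ ∏ _i : Fin k, b := by
      refine Finset.prod_le_prod' fun i _ => ?_
      rw [← Set.ncard_eq_toFinset_card (T i) (hT i)]
      exact hb i
    refine h2.trans ?_
    simp
  have hsub : P '' z ⊆ (fun w : Fin k → ℕ =>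
      if h : ∃ s ∈ z, v s = w then P h.choose else 0) '' (↑S : Set (Fin k → ℕ)) := by
    rintro _ ⟨s, hs, rfl⟩
    refine ⟨v s, ?_, ?_⟩
    · refine Finset.mem_coe.2 (Fintype.mem_piFinset.2 fun i => ?_)
      exact (hT i).mem_toFinset.2 (hv s hs i)
    · have h : ∃ t ∈ z, v t = v s := ⟨s, hs, rfl⟩
      simp only [dif_pos h]
      exact hP _ h.choose_spec.1 _ hs h.choose_spec.2
  have h3 := Set.ncard_le_ncard hsub (S.finite_toSet.image _)
  have h4 := Set.ncard_image_le (f := fun w : Fin k → ℕ =>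
      if h : ∃ s ∈ z, v s = w then P h.choose else 0) S.finite_toSet
  rw [Set.ncard_coe_finset] at h4
  omega

theorem exists_level (k n : ℕ) (hn : 2 ^ (k + 1) ≤ n) :
    ∃ m, (m + 2) ^ (k + 1) ≤ n ∧ n < (m + 3) ^ (k + 1) := by
  classical
  have hex : ∃ p, n < p ^ (k + 1) := by
    refine ⟨n + 1, ?_⟩
    have h1 : (n + 1) ^ 1 ≤ (n + 1) ^ (k + 1) := Nat.pow_le_pow_right (by omega) (by omega)
    rw [pow_one] at h1
    omega
  have hp := Nat.find_spec hex
  have h3 : 3 ≤ Nat.find hex := by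
    by_contra hc
    have h4 : Nat.find hex ≤ 2 := by omega
    have h5 : (Nat.find hex) ^ (k + 1) ≤ 2 ^ (k + 1) := Nat.pow_le_pow_left h4 _
    omega
  refine ⟨Nat.find hex - 3, ?_, ?_⟩
  · have h6 := Nat.find_min hex (m := Nat.find hex - 3 + 2) (by omega)
    omega
  · have h7 : Nat.find hex - 3 + 3 = Nat.find hex := by omega
    rw [h7]
    exact hp

/-- Let `U` be a hereditarily rapid ultrafilter such that for each `F : ℕ → 2^ℕ` there is `x ∈ U`
such that the closure of `F[x]` has finite Cantor-Bendixson rank.  Then `U` is Laver. -/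
theorem result (U : Ultrafilter ℕ) (hHR : HereditarilyRapid U)
    (hCB : ∀ F : ℕ → (ℕ → Bool), ∃ x ∈ U, ∃ r : ℕ, derivedSet^[r] (closure (F '' x)) = ∅) :
    Laver U := by
  classical
  intro P hP
  have hB : ∀ n, ∃ b, ∀ s, P n s < 2 ^ b := by
    intro n
    obtain ⟨b, hb⟩ := (hP n).bddAbove
    refine ⟨b, fun s => ?_⟩
    have h1 : P n s ≤ b := hb ⟨s, rfl⟩
    exact lt_of_le_of_lt h1 Nat.lt_two_pow_self
  choose B hB using hB
  let F : ℕ → (ℕ → Bool) := fun s k => (P k.unpair.1 s).testBit k.unpair.2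
  have hFP : ∀ n s t, (∀ j < Nat.pair n (B n), F s j = F t j) → P n s = P n t := by
    intro n s t h
    refine Nat.eq_of_testBit_eq fun i => ?_
    by_cases hi : i < B n
    · have h1 := h (Nat.pair n i) (Nat.pair_lt_pair_right n hi)
      simpa [F] using h1
    · have h2 : 2 ^ B n ≤ 2 ^ i := Nat.pow_le_pow_right (by omega) (by omega)
      rw [Nat.testBit_lt_two_pow (lt_of_lt_of_le (hB n s) h2),
        Nat.testBit_lt_two_pow (lt_of_lt_of_le (hB n t) h2)]
  obtain ⟨x₀, hx₀, r, hr⟩ := hCB F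
  obtain ⟨g, hg⟩ := coords r _ isClosed_closure hr
  choose N hN using hg
  have hf : StrictMono fun m => m + ∑ n ∈ Finset.range ((m + 3) ^ (2 * r + 1)),
      N (Nat.pair n (B n)) := by
    intro a b hab
    have h1 : Finset.range ((a + 3) ^ (2 * r + 1)) ⊆ Finset.range ((b + 3) ^ (2 * r + 1)) :=
      Finset.range_mono (Nat.pow_le_pow_left (by omega) _)
    have h2 : ∑ n ∈ Finset.range ((a + 3) ^ (2 * r + 1)), N (Nat.pair n (B n)) ≤
        ∑ n ∈ Finset.range ((b + 3) ^ (2 * r + 1)), N (Nat.pair n (B n)) :=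
      Finset.sum_le_sum_of_subset h1
    show a + _ < b + _
    omega
  have hx : ∀ i : Fin (2 * r), ∃ x ∈ U, ∀ m, (((fun s => g (F s) i) '' x) ∩ {k | k < m +
      ∑ n ∈ Finset.range ((m + 3) ^ (2 * r + 1)), N (Nat.pair n (B n))}).Finite ∧
      (((fun s => g (F s) i) '' x) ∩ {k | k < m +
      ∑ n ∈ Finset.range ((m + 3) ^ (2 * r + 1)), N (Nat.pair n (B n))}).ncard ≤ m + 1 :=
    fun i => thin_image U hHR (fun s => g (F s) i) _ hf
  choose x hxU hx using hx
  have hc : ∀ n, ∃ y ∈ U, ∃ c, P n '' y ⊆ {c} := fun n => const_image U (P n) (hP n)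
  choose y hyU c hc using hc
  have hzU : x₀ ∩ ((⋂ i : Fin (2 * r), x i) ∩ ⋂ n ∈ Finset.range (2 ^ (2 * r + 1)), y n) ∈ U := by
    refine Filter.inter_mem hx₀ (Filter.inter_mem ?_ ?_)
    · exact Filter.iInter_mem.2 hxU
    · exact (Filter.biInter_finset_mem _).2 fun n _ => hyU n
  refine ⟨_, hzU, fun n => ?_⟩
  by_cases hn : n < 2 ^ (2 * r + 1)
  · have h1 : P n '' (x₀ ∩ ((⋂ i : Fin (2 * r), x i) ∩
        ⋂ n ∈ Finset.range (2 ^ (2 * r + 1)), y n)) ⊆ {c n} := by
      rintro _ ⟨s, hs, rfl⟩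
      have h2 := Set.mem_iInter₂.1 hs.2.2 n (Finset.mem_range.2 hn)
      exact hc n ⟨s, h2, rfl⟩
    have h3 := Set.ncard_le_ncard h1 (Set.finite_singleton _)
    rw [Set.ncard_singleton] at h3
    omega
  · obtain ⟨m, hm1, hm2⟩ := exists_level (2 * r) n (by omega)
    have hNm : N (Nat.pair n (B n)) ≤ m +
        ∑ n ∈ Finset.range ((m + 3) ^ (2 * r + 1)), N (Nat.pair n (B n)) := by
      have h1 := Finset.single_le_sum (f := fun n => N (Nat.pair n (B n)))
        (fun _ _ => Nat.zero_le _) (Finset.mem_range.2 hm2)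
      omega
    have hcount := count (x₀ ∩ ((⋂ i : Fin (2 * r), x i) ∩
        ⋂ n ∈ Finset.range (2 ^ (2 * r + 1)), y n)) (P n)
      (fun s i => min (g (F s) i) (N (Nat.pair n (B n))))
      (fun i => insert (N (Nat.pair n (B n))) (((fun s => g (F s) i) '' x i) ∩ {k | k < m +
        ∑ n ∈ Finset.range ((m + 3) ^ (2 * r + 1)), N (Nat.pair n (B n))})) (m + 2)
      (fun i => (hx i m).1.insert _)
      (fun i => (Set.ncard_insert_le _ _).trans (by have := (hx i m).2; omega))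
      ?_ ?_
    · have h2 : (m + 2) ^ (2 * r) ≤ (m + 2) ^ (2 * r + 1) :=
        Nat.pow_le_pow_right (by omega) (by omega)
      omega
    · intro s hs i
      by_cases hlt : g (F s) i < N (Nat.pair n (B n))
      · right
        have h3 : min (g (F s) i) (N (Nat.pair n (B n))) = g (F s) i := by omega
        show min (g (F s) i) (N (Nat.pair n (B n))) ∈ _
        rw [h3]
        refine ⟨⟨s, Set.mem_iInter.1 hs.2.1 i, rfl⟩, ?_⟩
        show g (F s) i < _
        omega
      · left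
        show min (g (F s) i) (N (Nat.pair n (B n))) = N (Nat.pair n (B n))
        omega
    · intro s hs t ht hst
      refine hFP n s t ?_
      refine hN _ (F s) (subset_closure ⟨s, hs.1, rfl⟩) (F t) (subset_closure ⟨t, ht.1, rfl⟩) ?_
      intro i hi
      exact congrFun hst ⟨i, hi⟩

end Pool.Agent.Results.MP_f72c2d_lc.FiniteRank
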